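import Pool.Agent.W787.PS.StmA

/-!
# Project PS, part AMI: a concentration point forces the averages to minus infinity
-/

set_option autoImplicit false

open MeasureTheory Set Metric Filter Topology

noncomputable section

namespace Pool.Agent.W597.PS

open Pool.Agent.W787.PS

lemma datum_integrable {Λ R L ε : ℝ} {ρ g w : ℂ → ℝ} (h : IsDatum Λ R L ε ρ g w) :
    Integrable ρ :=
  h.diff.continuous.integrable_of_hasCompactSupport h.supp

lemma datum_pos {Λ R L ε : ℝ} {ρ g w : ℂ → ℝ} (h : IsDatum Λ R L ε ρ g w) {x : ℂ}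
    (hx : x ∈ ball (0 : ℂ) R) : 0 < ρ x := by
  rw [h.eq x hx]; exact Real.exp_pos _

/-- the average of the logarithm of a rescaled density -/
lemma avg_sc (h5 : S_SCM) {Λ R L ε : ℝ} {ρ g w : ℂ → ℝ} (h : IsDatum Λ R L ε ρ g w) {s t : ℝ}
    (hs : 0 < s) (ht : 0 < t) (hR : s * t < R) :
    avg (fun x => Real.log (scρ ρ 0 s x)) 0 t = 2 * Real.log s +
      avg (fun x => Real.log (ρ x)) 0 (s * t) := by
  have e1 := h5.1 (fun x => Real.log (ρ x)) 0 0 s t hs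
  simp only [mul_zero, zero_add] at e1
  rw [← e1]
  have hmem : ∀ y ∈ closedBall (0 : ℂ) t, (s : ℂ) * y ∈ ball (0 : ℂ) R := by
    intro y hy
    rw [mem_closedBall_zero_iff] at hy
    rw [mem_ball_zero_iff, norm_mul, Complex.norm_real, Real.norm_eq_abs, abs_of_pos hs]
    exact lt_of_le_of_lt (mul_le_mul_of_nonneg_left hy hs.le) hR
  have hcont : ContinuousOn (fun y : ℂ => Real.log (ρ ((s : ℂ) * y))) (closedBall 0 t) := by
    apply ContinuousOn.log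
    · exact (h.diff.continuous.comp (by fun_prop)).continuousOn
    · intro y hy
      exact (datum_pos h (hmem y hy)).ne'
  have hint : IntegrableOn (fun y : ℂ => Real.log (ρ ((s : ℂ) * y))) (ball 0 t) :=
    (hcont.integrableOn_compact (isCompact_closedBall 0 t)).mono_set ball_subset_closedBall
  unfold avg
  have e2 : ∫ x in ball (0 : ℂ) t, Real.log (scρ ρ 0 s x) =
      ∫ x in ball (0 : ℂ) t, (2 * Real.log s + Real.log (ρ ((s : ℂ) * x))) := by
    refine setIntegral_congr_fun measurableSet_ball fun x hx => ?_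
    have hpos := datum_pos h (hmem x (ball_subset_closedBall hx))
    simp only [scρ, zero_add]
    rw [Real.log_mul (by positivity) hpos.ne', Real.log_pow]
    norm_num
  have hvol : volume.real (ball (0 : ℂ) t) = Real.pi * t ^ 2 := by
    rw [Measure.real, Complex.volume_ball, ENNReal.toReal_mul, ENNReal.toReal_pow,
      ENNReal.toReal_ofReal ht.le]
    simp
    ring
  have hfm : IsFiniteMeasure (volume.restrict (ball (0 : ℂ) t)) :=
    ⟨by rw [Measure.restrict_apply_univ]; exact measure_ball_lt_top⟩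
  have hconst : Integrable (fun _ : ℂ => 2 * Real.log s) (volume.restrict (ball (0 : ℂ) t)) :=
    integrable_const _
  have hint' : Integrable (fun y : ℂ => Real.log (ρ ((s : ℂ) * y)))
    (volume.restrict (ball (0 : ℂ) t)) := hint
  rw [e2, integral_add hconst hint', setIntegral_const, hvol, smul_eq_mul]
  have hpi := Real.pi_pos
  field_simp

/-- one scale -/
lemma one_scale (h1 : S_CMPL) (h3 : S_JEN) (h5 : S_SCM) (𝒰 : Ultrafilter ℕ) (Λ L : ℝ)
    (ρ g w : ℕ → ℂ → ℝ) (hL : 0 ≤ L) (hΛ : 0 ≤ Λ) (hseq : IsSeq 𝒰 Λ 4 L ρ g w)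
    (hc : ∀ r, 0 < r → r < 4 → ∀ κ, 0 < κ → ∀ᶠ n in (𝒰 : Filter ℕ),
      4 * Real.pi - κ ≤ ms (ρ n) 0 r) (A : ℝ)
    (hA : ∀ᶠ n in (𝒰 : Filter ℕ), -A ≤ avg (fun x => Real.log (ρ n x)) (3 / 2) (1 / 16)) :
    ∃ c : ℝ, 0 < c ∧ ∀ t : ℝ, 0 < t → t ≤ 1 → ∀ᶠ n in (𝒰 : Filter ℕ),
      c ≤ ms (ρ n) ((t : ℂ) * (3 / 2)) (t * (1 / 16)) := by
  obtain ⟨C, hC, hcmp⟩ := h1
  have hpi := Real.pi_pos
  refine ⟨Real.pi / 256 * Real.exp (-(A + C * (Λ + L) + 2)), by positivity, ?_⟩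
  intro t ht ht1
  obtain ⟨l, hl⟩ : ∃ l, l = Real.log t⁻¹ := ⟨_, rfl⟩
  have hl0 : 0 ≤ l := by
    rw [hl]; exact Real.log_nonneg ((one_le_inv₀ ht).2 ht1)
  have hκ : 0 < 2 * Real.pi / (l + 1) := by positivity
  have hε : 0 < 1 / (C * (Real.sqrt l + 1)) := by positivity
  filter_upwards [hA, hseq _ hε, hc (t / 2) (by positivity) (by linarith) _ hκ] with n a1 a2 a3
  have hn32 : ‖(3 / 2 : ℂ)‖ = 3 / 2 := by
    rw [norm_div]; simp
  have b1 := hcmp Λ 4 L _ (ρ n) (g n) (w n) hΛ hL hε.le a2 (3 / 2) t (by rw [hn32]; norm_num)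
    (by rw [hn32]; norm_num) ht ht1 (by norm_num)
  rw [← hl] at b1
  have e1 := h5.1 (fun x => Real.log (ρ n x)) 0 (3 / 2) t (1 / 16) ht
  simp only [zero_add] at e1
  rw [e1] at b1
  have b2 := h3 Λ 4 L _ (ρ n) (g n) (w n) a2 ((t : ℂ) * (3 / 2)) (t * (1 / 16)) (by positivity)
    (by
      rw [norm_mul, hn32, Complex.norm_real, Real.norm_eq_abs, abs_of_pos ht]
      linarith)
  -- the exponent
  have c1 : l / (2 * Real.pi) * (4 * Real.pi - 2 * Real.pi / (l + 1)) ≤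
      l / (2 * Real.pi) * ms (ρ n) 0 (t / 2) := mul_le_mul_of_nonneg_left a3 (by positivity)
  have c2 : 2 * l - 1 ≤ l / (2 * Real.pi) * (4 * Real.pi - 2 * Real.pi / (l + 1)) := by
    have : l / (2 * Real.pi) * (4 * Real.pi - 2 * Real.pi / (l + 1)) = 2 * l - l / (l + 1) := by
      field_simp
      ring
    rw [this]
    have : l / (l + 1) ≤ 1 := by
      rw [div_le_one (by positivity)]; linarith
    linarith
  have c3 : C * (Λ + L + 1 / (C * (Real.sqrt l + 1)) * Real.sqrt l) ≤ C * (Λ + L) + 1 := by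
    have hs := Real.sqrt_nonneg l
    have : C * (Λ + L + 1 / (C * (Real.sqrt l + 1)) * Real.sqrt l) =
        C * (Λ + L) + Real.sqrt l / (Real.sqrt l + 1) := by
      field_simp
    rw [this]
    have : Real.sqrt l / (Real.sqrt l + 1) ≤ 1 := by
      rw [div_le_one (by positivity)]; linarith
    linarith
  have c4 : 2 * l - (A + C * (Λ + L) + 2) ≤
      avg (fun x => Real.log (ρ n x)) ((t : ℂ) * (3 / 2)) (t * (1 / 16)) := by
    linarith
  refine le_trans ?_ b2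
  have c5 := Real.exp_le_exp.2 c4
  have c6 : Real.exp (2 * l - (A + C * (Λ + L) + 2)) =
      (t ^ 2)⁻¹ * Real.exp (-(A + C * (Λ + L) + 2)) := by
    rw [sub_eq_add_neg, Real.exp_add]
    congr 1
    rw [two_mul, Real.exp_add, hl, Real.exp_log (inv_pos.2 ht)]
    field_simp
  rw [c6] at c5
  have c7 := mul_le_mul_of_nonneg_left c5
    (show 0 ≤ Real.pi * (t * (1 / 16)) ^ 2 by positivity)
  refine le_trans (le_of_eq ?_) c7
  field_simp
  norm_num

/-- the discs -/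
def Bk (k : ℕ) : Set ℂ := ball ((((1 / 4 : ℝ) ^ k : ℝ) : ℂ) * (3 / 2)) ((1 / 4 : ℝ) ^ k * (1 / 16))

lemma Bk_norm {k : ℕ} {x : ℂ} (hx : x ∈ Bk k) :
    (1 / 4 : ℝ) ^ k * (23 / 16) < ‖x‖ ∧ ‖x‖ < (1 / 4 : ℝ) ^ k * (25 / 16) := by
  unfold Bk at hx
  rw [mem_ball_iff_norm] at hx
  have hpos : (0 : ℝ) < (1 / 4 : ℝ) ^ k := by positivity
  have hn : ‖(((1 / 4 : ℝ) ^ k : ℝ) : ℂ) * (3 / 2)‖ = (1 / 4 : ℝ) ^ k * (3 / 2) := by
    rw [norm_mul, Complex.norm_real, Real.norm_eq_abs, abs_of_pos hpos, norm_div]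
    simp
  have h1 := norm_sub_norm_le x ((((1 / 4 : ℝ) ^ k : ℝ) : ℂ) * (3 / 2))
  have h2 := norm_sub_norm_le ((((1 / 4 : ℝ) ^ k : ℝ) : ℂ) * (3 / 2)) x
  rw [norm_sub_rev] at h2
  rw [hn] at h1 h2
  constructor <;> linarith

lemma Bk_disj_lt {k k' : ℕ} (h : k < k') : Disjoint (Bk k) (Bk k') := by
  rw [Set.disjoint_left]
  intro x hx hx'
  have h1 := (Bk_norm hx).1
  have h2 := (Bk_norm hx').2
  have h3 : (1 / 4 : ℝ) ^ k' ≤ (1 / 4 : ℝ) ^ (k + 1) :=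
    pow_le_pow_of_le_one (by norm_num) (by norm_num) h
  have hpos : (0 : ℝ) < (1 / 4 : ℝ) ^ k := by positivity
  rw [pow_succ] at h3
  linarith

lemma Bk_disj {k k' : ℕ} (h : k ≠ k') : Disjoint (Bk k) (Bk k') := by
  rcases lt_or_gt_of_ne h with h | h
  · exact Bk_disj_lt h
  · exact (Bk_disj_lt h).symm

/-- the case of radius `4` -/
lemma ami4 (h1 : S_CMPL) (h2 : S_MC) (h3 : S_JEN) (h5 : S_SCM) (𝒰 : Ultrafilter ℕ) (Λ L : ℝ)
    (ρ g w : ℕ → ℂ → ℝ) (hL : 0 ≤ L) (hΛ : 0 ≤ Λ) (hseq : IsSeq 𝒰 Λ 4 L ρ g w)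
    (hc : ∀ r, 0 < r → r < 4 → ∀ κ, 0 < κ → ∀ᶠ n in (𝒰 : Filter ℕ),
      4 * Real.pi - κ ≤ ms (ρ n) 0 r) (r : ℝ) (hr : 0 < r) (hr4 : r < 4) (A : ℝ) :
    ∀ᶠ n in (𝒰 : Filter ℕ), avg (fun x => Real.log (ρ n x)) 0 r ≤ -A := by
  by_contra hcon
  rw [← Ultrafilter.eventually_not] at hcon
  have hn32 : ‖(3 / 2 : ℂ)‖ = 3 / 2 := by
    rw [norm_div]; simp
  obtain ⟨C0, hC0⟩ := h2 Λ 4 L 0 (3 / 2) r (1 / 16) hΛ hL hr (by norm_num)
    (by rw [norm_zero, zero_add]; exact hr4) (by rw [hn32]; norm_num)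
  have hA : ∀ᶠ n in (𝒰 : Filter ℕ),
      -(A + C0) ≤ avg (fun x => Real.log (ρ n x)) (3 / 2) (1 / 16) := by
    filter_upwards [hcon, hseq 1 one_pos] with n a1 a2
    have a3 := hC0 (ρ n) (g n) (w n) a2
    rw [abs_le] at a3
    push Not at a1
    linarith
  obtain ⟨c, hc0, hcs⟩ := one_scale h1 h3 h5 𝒰 Λ L ρ g w hL hΛ hseq hc _ hA
  obtain ⟨N, hN⟩ := exists_nat_gt (Λ / c)
  rw [div_lt_iff₀ hc0] at hN
  have hall : ∀ᶠ n in (𝒰 : Filter ℕ), ∀ k ∈ Finset.range N, c ≤ ∫ x in Bk k, ρ n x := by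
    rw [Filter.eventually_all_finset]
    intro k _
    exact hcs ((1 / 4 : ℝ) ^ k) (by positivity) (pow_le_one₀ (by norm_num) (by norm_num))
  obtain ⟨n, b1, b2⟩ := (hall.and (hseq 1 one_pos)).exists
  have hint := datum_integrable b2
  have s1 : ∫ x in ⋃ k ∈ Finset.range N, Bk k, ρ n x = ∑ k ∈ Finset.range N, ∫ x in Bk k, ρ n x :=
    integral_biUnion_finset (Finset.range N) (fun k _ => measurableSet_ball)
      (fun k _ k' _ hkk => Bk_disj hkk) (fun k _ => hint.integrableOn)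
  have s2 : ∫ x in ⋃ k ∈ Finset.range N, Bk k, ρ n x ≤ ∫ x, ρ n x :=
    setIntegral_le_integral hint (Eventually.of_forall b2.nonneg)
  have s3 : (N : ℝ) * c ≤ ∑ k ∈ Finset.range N, ∫ x in Bk k, ρ n x := by
    have := Finset.card_nsmul_le_sum (Finset.range N) (fun k => ∫ x in Bk k, ρ n x) c b1
    rw [Finset.card_range, nsmul_eq_mul] at this
    exact this
  have s4 := b2.mass
  linarith

end Pool.Agent.W597.PS

namespace Pool.Agent.W787.PS

open Pool.Agent.W597.PS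

theorem ami (h1 : S_CMPL) (h2 : S_MC) (h3 : S_JEN) (h4 : S_SCAL) (h5 : S_SCM) (_h6 : S_MONO) :
    S_AMI := by
  intro 𝒰 Λ R L ρ g w hR hL hΛ hseq hc r hr hrR A
  have hs0 : 0 < R / 4 := by positivity
  have hseq' : IsSeq 𝒰 Λ 4 (R / 4 * L) (fun n => scρ (ρ n) 0 (R / 4))
      (fun n => scg (ρ n) (g n) 0 (R / 4)) (fun n => scw (w n) 0 (R / 4)) := by
    intro ε hε
    filter_upwards [hseq ε hε] with n hn
    exact h4 Λ R L ε _ _ _ hn 0 (R / 4) 4 hs0 (by norm_num) (by rw [norm_zero]; linarith)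
  have hc' : ∀ r, 0 < r → r < 4 → ∀ κ, 0 < κ → ∀ᶠ n in (𝒰 : Filter ℕ),
      4 * Real.pi - κ ≤ ms (scρ (ρ n) 0 (R / 4)) 0 r := by
    intro r hr hr4 κ hκ
    filter_upwards [hc (R / 4 * r) (by positivity) (by nlinarith) κ hκ] with n hn
    rw [h5.2.1 (ρ n) 0 0 (R / 4) r hs0]
    simpa using hn
  have hr' : 0 < r / (R / 4) := by positivity
  have hr4 : r / (R / 4) < 4 := by
    rw [div_lt_iff₀ hs0]; linarith
  have key := ami4 h1 h2 h3 h5 𝒰 Λ (R / 4 * L) _ _ _ (by positivity) hΛ hseq' hc'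
    (r / (R / 4)) hr' hr4 (A - 2 * Real.log (R / 4))
  filter_upwards [key, hseq 1 one_pos] with n a1 a2
  have hrr : R / 4 * (r / (R / 4)) = r := by field_simp
  rw [avg_sc h5 a2 hs0 hr' (by rw [hrr]; exact hrR), hrr] at a1
  linarith

end Pool.Agent.W787.PS
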